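import Pool.Agent.Helper27.CB.St

/-!
# Project CB (MP_b21509_co): module TIL, the double lattice covering given by a p-hexagon
-/

set_option autoImplicit false

open MeasureTheory Set
open scoped ENNReal Pointwise

namespace Pool.Agent.Helper51.CB

open Pool.Agent.Helper27.CB

section abs

variable {V : Type} [AddCommGroup V] [Module ℝ V]

/-- a convex combination of `p`, `p + z`, `q` -/
theorem TIL_T {K : Set V} (hK : Convex ℝ K) {p q z : V} (hp : p ∈ K) (hpz : p + z ∈ K)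
    (hq : q ∈ K) {l a m : ℝ} (ha : 0 ≤ a) (hal : a ≤ l) (hm : 0 ≤ m) (hlm : l + m = 1) :
    l • p + a • z + m • q ∈ K := by
  have h1 : (l - a) • p + a • (p + z) + m • q ∈ K := by
    have h := hK.sum_mem (t := Finset.univ) (w := ![l - a, a, m]) (z := ![p, p + z, q])
      (by
        intro i _
        fin_cases i
        · simpa using hal
        · simpa using ha
        · simpa using hm)
      (by
        simp [Fin.sum_univ_three]
        linarith)
      (by
        intro i _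
        fin_cases i
        · simpa using hp
        · simpa using hpz
        · simpa using hq)
    simpa [Fin.sum_univ_three] using h
  have h2 : (l - a) • p + a • (p + z) + m • q = l • p + a • z + m • q := by
    module
  rwa [h2] at h1

theorem TIL_t {a b c : ℝ} (h1 : a ≤ c) (h2 : c ≤ b) :
    ∃ t : ℝ, 0 ≤ t ∧ t ≤ 1 ∧ c = (1 - t) * a + t * b := by
  rcases eq_or_lt_of_le (h1.trans h2) with h | h
  · exact ⟨0, le_rfl, zero_le_one, by rw [h] at h1; linarith⟩
  · have h3 : 0 < b - a := by linarith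
    refine ⟨(c - a) / (b - a), div_nonneg (by linarith) h3.le, ?_, ?_⟩
    · rw [div_le_one h3]; linarith
    · field_simp
      ring

variable (h : V →ₗ[ℝ] ℝ) (z : V) (hker : ∀ Y, h Y = 0 → ∃ a : ℝ, Y = a • z) {K : Set V}
  (hK : Convex ℝ K) {p0 p3 p4 p5 : V} (h0 : p0 ∈ K) (h3 : p3 ∈ K) (h4 : p4 ∈ K) (h4z : p4 + z ∈ K)
  (h5 : p5 ∈ K) (h5z : p5 + z ∈ K)

include hker in
/-- coordinates of `Y` in a strip -/
theorem TIL_coord (A B Y : V) (h1 : h A ≤ h Y) (h2 : h Y ≤ h B) :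
    ∃ (t : ℝ) (m : ℤ) (a : ℝ), 0 ≤ t ∧ t ≤ 1 ∧ 0 ≤ a ∧ a < 1 ∧
      Y - (m : ℝ) • z = (1 - t) • A + t • B + a • z := by
  obtain ⟨t, ht0, ht1, ht⟩ := TIL_t h1 h2
  obtain ⟨a, ha⟩ := hker (Y - ((1 - t) • A + t • B)) (by
    rw [map_sub, map_add, map_smul, map_smul, smul_eq_mul, smul_eq_mul, ht]
    ring)
  refine ⟨t, ⌊a⌋, Int.fract a, ht0, ht1, Int.fract_nonneg a, Int.fract_lt_one a, ?_⟩
  have h3 : Y = (1 - t) • A + t • B + a • z := by
    rw [← ha]
    abel
  have h4 : a • z - (⌊a⌋ : ℝ) • z = Int.fract a • z := by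
    rw [← sub_smul, Int.self_sub_floor]
  rw [h3, add_sub_assoc, h4]

include hker hK h4 h4z h5 h5z in
theorem TIL_A (Y : V) (h1 : h p4 ≤ h Y) (h2 : h Y ≤ h p5) : ∃ m : ℤ, Y - (m : ℝ) • z ∈ K := by
  obtain ⟨t, m, a, ht0, ht1, ha0, ha1, he⟩ := TIL_coord h z hker p4 p5 Y h1 h2
  refine ⟨m, ?_⟩
  rw [he]
  have e1 : p4 + a • z ∈ K := by
    have := TIL_T hK h4 h4z h4 (l := 1) (m := 0) ha0 ha1.le le_rfl (by ring)
    simpa using this
  have e2 : p5 + a • z ∈ K := by
    have := TIL_T hK h5 h5z h5 (l := 1) (m := 0) ha0 ha1.le le_rfl (by ring)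
    simpa using this
  have e3 := hK e1 e2 (sub_nonneg.2 ht1) ht0 (by ring)
  have e4 : (1 - t) • (p4 + a • z) + t • (p5 + a • z) = (1 - t) • p4 + t • p5 + a • z := by
    module
  rwa [e4] at e3

include hker hK h0 h5 h5z in
theorem TIL_B (Y : V) (h1 : h p5 ≤ h Y) (h2 : h Y ≤ h p0) :
    ∃ m : ℤ, Y - (m : ℝ) • z ∈ K ∨ (p0 + p5 + z) - (Y - (m : ℝ) • z) ∈ K := by
  obtain ⟨t, m, a, ht0, ht1, ha0, ha1, he⟩ := TIL_coord h z hker p5 p0 Y h1 h2
  refine ⟨m, ?_⟩
  rw [he]
  rcases le_or_gt a (1 - t) with hc | hc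
  · left
    have e := TIL_T hK h5 h5z h0 (l := 1 - t) (m := t) ha0 hc ht0 (by ring)
    have e1 : (1 - t) • p5 + a • z + t • p0 = (1 - t) • p5 + t • p0 + a • z := by abel
    rwa [e1] at e
  · right
    have e := TIL_T hK h5 h5z h0 (l := t) (a := 1 - a) (m := 1 - t) (by linarith) (by linarith)
      (by linarith) (by ring)
    have e1 : t • p5 + (1 - a) • z + (1 - t) • p0 =
        p0 + p5 + z - ((1 - t) • p5 + t • p0 + a • z) := by module
    rwa [e1] at e

include hker hK h3 h4 h4z in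
theorem TIL_D (Y : V) (h1 : h (p0 + p5 - p4) ≤ h Y) (h2 : h Y ≤ h (p0 - p3 + p5)) :
    ∃ m : ℤ, (Y - (m : ℝ) • z) - ((p0 - p3) + (p5 - p4)) ∈ K ∨
      (p0 + p5 + z) - (Y - (m : ℝ) • z) ∈ K := by
  obtain ⟨t, m, a, ht0, ht1, ha0, ha1, he⟩ := TIL_coord h z hker _ _ Y h1 h2
  refine ⟨m, ?_⟩
  rw [he]
  rcases le_or_gt a t with hc | hc
  · left
    have e := TIL_T hK h4 h4z h3 (l := t) (m := 1 - t) ha0 hc (by linarith) (by ring)
    have e1 : t • p4 + a • z + (1 - t) • p3 =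
        (1 - t) • (p0 + p5 - p4) + t • (p0 - p3 + p5) + a • z - ((p0 - p3) + (p5 - p4)) := by module
    rwa [e1] at e
  · right
    have e := TIL_T hK h4 h4z h3 (l := 1 - t) (a := 1 - a) (m := t) (by linarith) (by linarith)
      ht0 (by ring)
    have e1 : (1 - t) • p4 + (1 - a) • z + t • p3 =
        p0 + p5 + z - ((1 - t) • (p0 + p5 - p4) + t • (p0 - p3 + p5) + a • z) := by module
    rwa [e1] at e

include hker hK h0 h3 h4 h4z h5 h5z in
theorem TIL_abs (hz : h z = 0) (h34 : h p3 ≤ h p4) (h45 : h p4 ≤ h p5) (h50 : h p5 ≤ h p0) (h30 : h p3 < h p0)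
    (X : V) : ∃ m n : ℤ, X - ((m : ℝ) • z + (n : ℝ) • ((p0 - p3) + (p5 - p4))) ∈ K ∨
      (p0 + p5 + z) - (X - ((m : ℝ) • z + (n : ℝ) • ((p0 - p3) + (p5 - p4)))) ∈ K := by
  set d := (p0 - p3) + (p5 - p4) with hd
  have hhd : h d = (h p0 - h p3) + (h p5 - h p4) := by
    rw [hd, map_add, map_sub, map_sub]
  have hdpos : 0 < h d := by rw [hhd]; linarith
  set n : ℤ := ⌊(h X - h p4) / h d⌋ with hn
  set Y := X - (n : ℝ) • d with hY
  have hhY : h Y = h X - n * h d := by rw [hY, map_sub, map_smul, smul_eq_mul]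
  have hY1 : h p4 ≤ h Y := by
    have h1 : (n : ℝ) ≤ (h X - h p4) / h d := Int.floor_le _
    rw [le_div_iff₀ hdpos] at h1
    rw [hhY]
    linarith
  have hY2 : h Y < h p4 + h d := by
    have h1 : (h X - h p4) / h d < n + 1 := Int.lt_floor_add_one _
    rw [div_lt_iff₀ hdpos] at h1
    rw [hhY]
    linarith
  have hX : ∀ m : ℤ, X - ((m : ℝ) • z + (n : ℝ) • d) = Y - (m : ℝ) • z := by
    intro m
    rw [hY]
    abel
  rcases le_or_gt (h Y) (h p5) with hc1 | hc1
  · obtain ⟨m, hm⟩ := TIL_A h z hker hK h4 h4z h5 h5z Y hY1 hc1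
    exact ⟨m, n, Or.inl (by rw [hX]; exact hm)⟩
  rcases le_or_gt (h Y) (h p0) with hc2 | hc2
  · obtain ⟨m, hm⟩ := TIL_B h z hker hK h0 h5 h5z Y hc1.le hc2
    exact ⟨m, n, by rw [hX]; exact hm⟩
  rcases le_or_gt (h Y) (h p0 + h p5 - h p4) with hc3 | hc3
  · obtain ⟨m, hm⟩ := TIL_A h z hker hK h4 h4z h5 h5z (p0 + p5 + z - Y)
      (by rw [map_sub, map_add, map_add, hz]; linarith)
      (by rw [map_sub, map_add, map_add, hz]; linarith)
    refine ⟨-m, n, Or.inr ?_⟩
    rw [hX]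
    have e1 : p0 + p5 + z - (Y - ((-m : ℤ) : ℝ) • z) = p0 + p5 + z - Y - (m : ℝ) • z := by
      push_cast
      module
    rw [e1]
    exact hm
  · obtain ⟨m, hm | hm⟩ := TIL_D h z hker hK h3 h4 h4z (p0 := p0) (p5 := p5) Y
      (by rw [map_sub, map_add]; linarith)
      (by
        have e : h (p0 - p3 + p5) = h p0 - h p3 + h p5 := by rw [map_add, map_sub]
        rw [hhd] at hY2
        rw [e]
        linarith)
    · refine ⟨m, n + 1, Or.inl ?_⟩
      have e1 : X - ((m : ℝ) • z + ((n + 1 : ℤ) : ℝ) • d) = Y - (m : ℝ) • z - d := by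
        rw [hY]
        push_cast
        module
      rw [e1]
      exact hm
    · exact ⟨m, n, Or.inr (by rw [hX]; exact hm)⟩

end abs

/-- the height as a linear functional -/
noncomputable def TIL_h (z : E2) : E2 →ₗ[ℝ] ℝ where
  toFun x := z 0 * x 1 - z 1 * x 0
  map_add' x y := by
    simp only [PiLp.add_apply]
    ring
  map_smul' c x := by
    simp only [PiLp.smul_apply, smul_eq_mul, RingHom.id_apply]
    ring

theorem TIL_h_apply (z x : E2) : TIL_h z x = z 0 * x 1 - z 1 * x 0 := rfl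

theorem hTIL : StTIL := by
  intro K hK z p0 p3 p4 p5 h0 h3 h4 h4z h5 h5z h34 h45 h50 h30 X
  refine TIL_abs (TIL_h z) z ?_ hK h0 h3 h4 h4z h5 h5z ?_ h34 h45 h50 h30 X
  · intro Y hY
    rw [TIL_h_apply] at hY
    have hz : z 0 ≠ 0 ∨ z 1 ≠ 0 := by
      by_contra hcon
      push Not at hcon
      rw [hcon.1, hcon.2] at h30
      simp at h30
    rcases hz with hz | hz
    · refine ⟨Y 0 / z 0, ?_⟩
      ext i
      fin_cases i
      · simp only [Fin.zero_eta, PiLp.smul_apply, smul_eq_mul]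
        field_simp
      · simp only [Fin.mk_one, PiLp.smul_apply, smul_eq_mul]
        field_simp
        linarith
    · refine ⟨Y 1 / z 1, ?_⟩
      ext i
      fin_cases i
      · simp only [Fin.zero_eta, PiLp.smul_apply, smul_eq_mul]
        field_simp
        linarith
      · simp only [Fin.mk_one, PiLp.smul_apply, smul_eq_mul]
        field_simp
  · rw [TIL_h_apply]
    ring

end Pool.Agent.Helper51.CB
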